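import Mathlib

/-! Independent repetition of a finite experiment: Chebyshev's inequality by counting. -/

set_option autoImplicit false

namespace Pool.Agent.Helper60.UG

open Finset

/-- the second moment of a sum of independent centred variables -/
theorem second_moment {Ω : Type} [Fintype Ω] (h : Ω → ℝ) (h0 : ∑ a, h a = 0) (t : ℕ) :
    ∑ ω : Fin t → Ω, (∑ j, h (ω j)) ^ 2 = t * (Fintype.card Ω : ℝ) ^ (t - 1) * ∑ a, h a ^ 2 := by
  induction t with
  | zero => simp
  | succ t ih =>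
    have e1 : ∑ ω : Fin (t + 1) → Ω, (∑ j, h (ω j)) ^ 2 =
        ∑ a : Ω, ∑ ω : Fin t → Ω, (h a + ∑ j, h (ω j)) ^ 2 := by
      rw [← Fintype.sum_prod_type' (f := fun (a : Ω) (ω : Fin t → Ω) => (h a + ∑ j, h (ω j)) ^ 2)]
      rw [← Equiv.sum_comp (Fin.consEquiv fun _ : Fin (t + 1) => Ω)]
      refine Finset.sum_congr rfl fun x _ => ?_
      rw [Fin.sum_univ_succ]
      simp [Fin.consEquiv]
    have e2 : ∀ a : Ω, ∑ ω : Fin t → Ω, (h a + ∑ j, h (ω j)) ^ 2 =
        (Fintype.card Ω : ℝ) ^ t * h a ^ 2 + 2 * h a * (∑ ω : Fin t → Ω, ∑ j, h (ω j)) +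
          ∑ ω : Fin t → Ω, (∑ j, h (ω j)) ^ 2 := by
      intro a
      have e3 : ∀ ω : Fin t → Ω, (h a + ∑ j, h (ω j)) ^ 2 =
          h a ^ 2 + 2 * h a * (∑ j, h (ω j)) + (∑ j, h (ω j)) ^ 2 := fun ω => by ring
      simp only [e3, Finset.sum_add_distrib, Finset.sum_const, Finset.card_univ, nsmul_eq_mul,
        ← Finset.mul_sum]
      rw [Fintype.card_fun, Fintype.card_fin]
      push_cast
      ring
    rw [e1]
    simp only [e2, Finset.sum_add_distrib, ← Finset.mul_sum, Finset.sum_const, Finset.card_univ,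
      nsmul_eq_mul]
    rw [ih]
    have e4 : ∑ a : Ω, 2 * h a * (∑ ω : Fin t → Ω, ∑ j, h (ω j)) = 0 := by
      rw [← Finset.sum_mul, ← Finset.mul_sum, h0]
      ring
    rw [e4]
    rcases Nat.eq_zero_or_pos t with rfl | ht
    · simp
    · obtain ⟨u, rfl⟩ : ∃ u, t = u + 1 := ⟨t - 1, by omega⟩
      simp only [Nat.add_sub_cancel]
      push_cast
      ring

open Classical in
/-- Chebyshev's inequality for independent repetitions -/
theorem chebyshev {Ω : Type} [Fintype Ω] [Nonempty Ω] (P : Ω → Prop) (t : ℕ) (d : ℝ) (hd : 0 < d)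
    (htd : 3 ≤ 4 * (t : ℝ) * d ^ 2) :
    3 * ((univ.filter fun ω : Fin t → Ω => ¬ |((univ.filter fun j => P (ω j)).card : ℝ) -
      t * ((univ.filter fun a => P a).card / Fintype.card Ω : ℝ)| < t * d).card : ℝ) ≤
      Fintype.card (Fin t → Ω) := by
  have hΩ : (0 : ℝ) < Fintype.card Ω := by exact_mod_cast Fintype.card_pos
  obtain ⟨p, hp⟩ : ∃ p : ℝ, p = ((univ.filter fun a => P a).card / Fintype.card Ω : ℝ) := ⟨_, rfl⟩
  rw [← hp]
  have hpc : ((univ.filter fun a => P a).card : ℝ) = p * Fintype.card Ω := by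
    rw [hp]; field_simp
  set h : Ω → ℝ := fun a => (if P a then 1 else 0) - p with hh
  have h0 : ∑ a, h a = 0 := by
    rw [hh]
    simp only [Finset.sum_sub_distrib, Finset.sum_const, Finset.card_univ, nsmul_eq_mul,
      Finset.sum_boole]
    rw [hpc]
    ring
  have h2 : ∑ a, h a ^ 2 ≤ Fintype.card Ω / 4 := by
    have e1 : ∀ a, h a ^ 2 = (1 - 2 * p) * (if P a then 1 else 0) + p ^ 2 := by
      intro a
      rw [hh]
      by_cases ha : P a
      · simp only [ha, if_true]; ring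
      · simp only [ha, if_false]; ring
    simp only [e1, Finset.sum_add_distrib, ← Finset.mul_sum, Finset.sum_const, Finset.card_univ,
      nsmul_eq_mul, Finset.sum_boole]
    rw [hpc]
    nlinarith [mul_nonneg hΩ.le (sq_nonneg (p - 1 / 2))]
  have hsum : ∀ ω : Fin t → Ω, ((univ.filter fun j => P (ω j)).card : ℝ) - t * p =
      ∑ j, h (ω j) := by
    intro ω
    rw [hh]
    simp only [Finset.sum_sub_distrib, Finset.sum_const, Finset.card_univ, nsmul_eq_mul,
      Finset.sum_boole, Fintype.card_fin]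
  have h3 := second_moment h h0 t
  set B : Finset (Fin t → Ω) := univ.filter fun ω : Fin t → Ω =>
    ¬ |((univ.filter fun j => P (ω j)).card : ℝ) - t * p| < t * d with hB
  have h4 : (B.card : ℝ) * (t * d) ^ 2 ≤ ∑ ω : Fin t → Ω, (∑ j, h (ω j)) ^ 2 := by
    calc (B.card : ℝ) * (t * d) ^ 2 = ∑ ω ∈ B, (t * d) ^ 2 := by
          rw [Finset.sum_const, nsmul_eq_mul]
      _ ≤ ∑ ω ∈ B, (∑ j, h (ω j)) ^ 2 := by
          refine Finset.sum_le_sum fun ω hω => ?_
          have h5 := (Finset.mem_filter.mp hω).2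
          rw [hsum ω, not_lt] at h5
          have h6 : (0 : ℝ) ≤ t * d := by positivity
          calc (t * d) ^ 2 ≤ |∑ j, h (ω j)| ^ 2 := pow_le_pow_left₀ h6 h5 2
            _ = _ := sq_abs _
      _ ≤ _ := Finset.sum_le_sum_of_subset_of_nonneg (Finset.subset_univ _)
          fun _ _ _ => sq_nonneg _
  have ht0 : (0 : ℝ) < t := by
    rcases Nat.eq_zero_or_pos t with rfl | ht
    · norm_num at htd
    · exact_mod_cast ht
  rw [Fintype.card_fun, Fintype.card_fin]
  push_cast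
  obtain ⟨u, hu⟩ : ∃ u, t = u + 1 := ⟨t - 1, by
    have : 0 < t := by exact_mod_cast ht0
    omega⟩
  have h7 : ∑ ω : Fin t → Ω, (∑ j, h (ω j)) ^ 2 ≤ t * (Fintype.card Ω : ℝ) ^ t / 4 := by
    rw [h3]
    have h8 : t * (Fintype.card Ω : ℝ) ^ (t - 1) * ∑ a, h a ^ 2 ≤
        t * (Fintype.card Ω : ℝ) ^ (t - 1) * (Fintype.card Ω / 4) :=
      mul_le_mul_of_nonneg_left h2 (by positivity)
    refine h8.trans (le_of_eq ?_)
    have h9 : (Fintype.card Ω : ℝ) ^ t = (Fintype.card Ω : ℝ) ^ (t - 1) * Fintype.card Ω := by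
      rw [← pow_succ]
      congr 1
      omega
    rw [h9]
    ring
  have h10 := h4.trans h7
  have h11 : (0 : ℝ) < (Fintype.card Ω : ℝ) ^ t := by positivity
  have h12 : (B.card : ℝ) * (4 * t * d ^ 2) ≤ (Fintype.card Ω : ℝ) ^ t := by
    have h13 : t * ((B.card : ℝ) * (4 * t * d ^ 2)) ≤ t * (Fintype.card Ω : ℝ) ^ t := by
      nlinarith
    exact le_of_mul_le_mul_left h13 ht0
  have h14 : (B.card : ℝ) * 3 ≤ (B.card : ℝ) * (4 * t * d ^ 2) :=
    mul_le_mul_of_nonneg_left htd (Nat.cast_nonneg _)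
  linarith

end Pool.Agent.Helper60.UG
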