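import Pool.Agent.W906.MU.Defs
import Pool.Agent.Helper60.UG.Cheb

/-! Amplification of the advantage of randomised circuits of monotone real gates. -/

set_option autoImplicit false

namespace Pool.Agent.Helper60.UG

open Finset Pool.Agent.W906.MU

lemma prog_append {I : Type} {inp : Set (I → ℝ)} {l l' : List (I → ℝ)} (h : Prog inp l)
    (h' : Prog inp l') : Prog inp (l ++ l') := by
  induction h with
  | nil => simpa using h'
  | input _ hf ih => exact Prog.input ih hf
  | gate _ hφ hf hg ih =>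
    exact Prog.gate ih hφ (List.mem_append_left _ hf) (List.mem_append_left _ hg)

/-- the number of the accepting circuits among `t` circuits is computed by monotone real gates -/
theorem prog_count {I : Type} {inp : Set (I → ℝ)} (h0 : (fun _ => (0 : ℝ)) ∈ inp) (s : ℕ) :
    ∀ (t : ℕ) (l : Fin t → List (I → ℝ)) (_ : ∀ j, Prog inp (l j)) (_ : ∀ j, (l j).length ≤ s)
      (f : Fin t → I → ℝ) (_ : ∀ j, f j ∈ l j),
      ∃ L : List (I → ℝ), Prog inp L ∧ L.length ≤ t * (s + 1) + 1 ∧
        (fun i => ∑ j, if 1 ≤ f j i then (1 : ℝ) else 0) ∈ L := by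
  intro t
  induction t with
  | zero =>
    intro l _ _ f _
    refine ⟨[fun _ => 0], Prog.input Prog.nil h0, by simp, ?_⟩
    have : (fun i : I => ∑ j : Fin 0, if 1 ≤ f j i then (1 : ℝ) else 0) = fun _ => 0 := by
      funext i
      simp
    rw [this]
    simp
  | succ t ih =>
    intro l hl hs f hf
    obtain ⟨L, hL, hlen, hmem⟩ := ih (fun j => l j.castSucc) (fun j => hl _) (fun j => hs _)
      (fun j => f j.castSucc) (fun j => hf _)
    have hm : Mono2 (fun u v : ℝ => (if 1 ≤ u then (1 : ℝ) else 0) + v) := by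
      intro a a' b b' h1 h2
      have h3 : (if 1 ≤ a then (1 : ℝ) else 0) ≤ (if 1 ≤ a' then (1 : ℝ) else 0) := by
        split_ifs with h4 h5
        · exact le_rfl
        · exact absurd (h4.trans h1) h5
        · exact zero_le_one
        · exact le_rfl
      exact add_le_add h3 h2
    refine ⟨_, Prog.gate (prog_append (hl (Fin.last t)) hL) hm
      (List.mem_append_left _ (hf (Fin.last t))) (List.mem_append_right _ hmem), ?_, ?_⟩
    · rw [List.length_cons, List.length_append]
      have h1 := hs (Fin.last t)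
      have h2 : (t + 1) * (s + 1) = t * (s + 1) + (s + 1) := by ring
      rw [h2]
      omega
    · have e : (fun i : I => ∑ j : Fin (t + 1), if 1 ≤ f j i then (1 : ℝ) else 0) = fun i =>
          (if 1 ≤ f (Fin.last t) i then (1 : ℝ) else 0) +
            ∑ j : Fin t, if 1 ≤ f j.castSucc i then (1 : ℝ) else 0 := by
        funext i
        rw [Fin.sum_univ_castSucc, add_comm]
      rw [e]
      exact List.mem_cons_self

open Classical in
/-- amplification -/
theorem amplify {I : Type} {inp : Set (I → ℝ)} (h0 : (fun _ => (0 : ℝ)) ∈ inp) {Ω : Type}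
    [Fintype Ω] [Nonempty Ω] (l : Ω → List (I → ℝ)) (hl : ∀ ω, Prog inp (l ω)) (s : ℕ)
    (hs : ∀ ω, (l ω).length ≤ s) (f : Ω → I → ℝ) (hf : ∀ ω, f ω ∈ l ω) (No Yes : I → Prop)
    (b g : ℝ) (hg : 0 < g)
    (h1 : ∀ i, No i → (b + g) * Fintype.card Ω ≤ (univ.filter fun ω => 1 ≤ f ω i).card)
    (h2 : ∀ i, Yes i → ((univ.filter fun ω => 1 ≤ f ω i).card : ℝ) ≤ b * Fintype.card Ω)
    (t : ℕ) (ht : 3 ≤ (t : ℝ) * g ^ 2) :
    ∃ L : (Fin t → Ω) → List (I → ℝ), (∀ ω, Prog inp (L ω)) ∧
      (∀ ω, (L ω).length ≤ t * (s + 1) + 1) ∧ ∃ (F : (Fin t → Ω) → I → ℝ) (τ : ℝ),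
        (∀ ω, F ω ∈ L ω) ∧ ∀ i,
        (No i → 2 * Fintype.card (Fin t → Ω) ≤ 3 * (univ.filter fun ω => τ ≤ F ω i).card) ∧
        (Yes i → 2 * Fintype.card (Fin t → Ω) ≤ 3 * (univ.filter fun ω => F ω i < τ).card) := by
  have hex := fun ω : Fin t → Ω => prog_count h0 s t (fun j => l (ω j)) (fun j => hl _)
    (fun j => hs _) (fun j => f (ω j)) (fun j => hf _)
  choose L hL hlen hmem using hex
  have hΩ : (0 : ℝ) < Fintype.card Ω := by exact_mod_cast Fintype.card_pos
  have ht0 : (0 : ℝ) < t := by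
    rcases Nat.eq_zero_or_pos t with rfl | ht'
    · norm_num at ht
    · exact_mod_cast ht'
  have key : ∀ (i : I) (Q : (Fin t → Ω) → Prop),
      (∀ ω, |((univ.filter fun j => 1 ≤ f (ω j) i).card : ℝ) -
        t * ((univ.filter fun a => 1 ≤ f a i).card / Fintype.card Ω : ℝ)| < t * (g / 2) → Q ω) →
      2 * Fintype.card (Fin t → Ω) ≤ 3 * (univ.filter fun ω => Q ω).card := by
    intro i Q hQ
    have h3 := chebyshev (fun a => 1 ≤ f a i) t (g / 2) (by positivity)
      (by linarith [show 4 * (t : ℝ) * (g / 2) ^ 2 = t * g ^ 2 by ring])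
    have h4 := Finset.card_filter_add_card_filter_not (s := (univ : Finset (Fin t → Ω)))
      (p := fun ω => |((univ.filter fun j => 1 ≤ f (ω j) i).card : ℝ) -
        t * ((univ.filter fun a => 1 ≤ f a i).card / Fintype.card Ω : ℝ)| < t * (g / 2))
    rw [Finset.card_univ] at h4
    have h5 : 3 * ((univ.filter fun ω : Fin t → Ω =>
        ¬ |((univ.filter fun j => 1 ≤ f (ω j) i).card : ℝ) -
        t * ((univ.filter fun a => 1 ≤ f a i).card / Fintype.card Ω : ℝ)| < t * (g / 2)).card) ≤
        Fintype.card (Fin t → Ω) := by exact_mod_cast h3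
    have h6 : (univ.filter fun ω : Fin t → Ω =>
        |((univ.filter fun j => 1 ≤ f (ω j) i).card : ℝ) -
        t * ((univ.filter fun a => 1 ≤ f a i).card / Fintype.card Ω : ℝ)| < t * (g / 2)).card ≤
        (univ.filter fun ω => Q ω).card := by
      apply Finset.card_le_card
      intro ω hω
      rw [Finset.mem_filter] at hω ⊢
      exact ⟨hω.1, hQ ω hω.2⟩
    omega
  refine ⟨L, hL, hlen, fun ω i => ∑ j, if 1 ≤ f (ω j) i then (1 : ℝ) else 0, t * (b + g / 2),
    hmem, fun i => ⟨fun hi => ?_, fun hi => ?_⟩⟩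
  · refine key i _ fun ω hω => ?_
    beta_reduce
    rw [Finset.sum_boole]
    have h3 := (abs_lt.mp hω).1
    have h4 : b + g ≤ ((univ.filter fun a => 1 ≤ f a i).card / Fintype.card Ω : ℝ) := by
      rw [le_div_iff₀ hΩ]
      exact h1 i hi
    have h5 := mul_le_mul_of_nonneg_left h4 ht0.le
    nlinarith
  · refine key i _ fun ω hω => ?_
    beta_reduce
    rw [Finset.sum_boole]
    have h3 := (abs_lt.mp hω).2
    have h4 : ((univ.filter fun a => 1 ≤ f a i).card / Fintype.card Ω : ℝ) ≤ b := by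
      rw [div_le_iff₀ hΩ]
      exact h2 i hi
    have h5 := mul_le_mul_of_nonneg_left h4 ht0.le
    nlinarith

end Pool.Agent.Helper60.UG
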