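import Pool.Agent.Helper60.UG.Main

/-! Unique games with tags at the constraints. -/

set_option autoImplicit false
set_option linter.unusedSectionVars false
set_option linter.unusedVariables false

namespace Pool.Agent.Helper60.UG

open Finset Pool.Agent.Y630.NW Pool.Agent.Y630.TF Pool.Agent.Y630.TR Pool.Agent.W969.MC
  Pool.Agent.W906.MU

section

variable {X : Type} [Fintype X] [DecidableEq X] {K : ℕ} [NeZero K]

open Classical in
/-- the bits of a set -/
noncomputable def encS (I : Finset X) : X → Bool := fun x => decide (x ∈ I)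

lemma encS_true {I : Finset X} {x : X} : encS I x = true ↔ x ∈ I := by
  classical
  unfold encS
  rw [decide_eq_true_iff]

lemma hostS_true {I : Finset X} {τ : X → Fin K} {e : X × Fin K} :
    host (Function.Embedding.refl _) (fun _ => false) τ (encS I) e = true ↔
      e.1 ∈ I ∧ τ e.1 = e.2 := by
  rw [host_true]
  constructor
  · rintro (h | ⟨x, h1, h2⟩)
    · exact absurd h (by simp)
    · have h3 : (x, τ x) = e := h2
      rw [← h3]
      exact ⟨encS_true.mp h1, rfl⟩
  · rintro ⟨h1, h2⟩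
    exact Or.inr ⟨e.1, encS_true.mpr h1, Prod.ext rfl h2⟩

open Classical in
lemma hostS_count (I : Finset X) (τ : X → Fin K) (P : X → Prop) :
    (univ.filter fun e : X × Fin K =>
      host (Function.Embedding.refl _) (fun _ => false) τ (encS I) e = true ∧ P e.1).card =
    (I.filter P).card := by
  symm
  refine Finset.card_bij (fun x _ => (x, τ x)) ?_ ?_ ?_
  · intro x hx
    rw [Finset.mem_filter] at hx
    exact Finset.mem_filter.mpr ⟨Finset.mem_univ _, hostS_true.mpr ⟨hx.1, rfl⟩, hx.2⟩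
  · intro x _ x' _ h
    exact (Prod.mk.inj h).1
  · intro e he
    have he' := (Finset.mem_filter.mp he).2
    obtain ⟨h1, h2⟩ := hostS_true.mp he'.1
    exact ⟨e.1, Finset.mem_filter.mpr ⟨h1, he'.2⟩, Prod.ext rfl h2⟩

open Classical in
lemma hostS_count' (I : Finset X) (τ : X → Fin K) :
    (univ.filter fun e : X × Fin K =>
      host (Function.Embedding.refl _) (fun _ => false) τ (encS I) e = true).card = I.card := by
  have h := hostS_count I τ (fun _ => True)
  simpa using h

/-- no constraint has two tags -/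
def Smp {X : Type} {K : ℕ} (x : X × Fin K → Bool) : Prop :=
  ∀ e e', x e = true → x e' = true → e.1 = e'.1 → e = e'

lemma smp_host (I : Finset X) (τ : X → Fin K) :
    Smp (host (Function.Embedding.refl _) (fun _ => false) τ (encS I)) := by
  intro e e' he he' h1
  obtain ⟨-, h2⟩ := hostS_true.mp he
  obtain ⟨-, h3⟩ := hostS_true.mp he'
  refine Prod.ext h1 ?_
  rw [← h2, ← h3, h1]

end

/-- the tagged games -/
abbrev UPos (N q K : ℕ) : Type := Con N q × Fin K

open Classical in
/-- exactly `m` constraints, no two tags at a constraint, value at most `δ` -/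
def UNo {N q K : ℕ} (m : ℕ) (δ : ℝ) (x : UPos N q K → Bool) : Prop :=
  Smp x ∧ (univ.filter fun e => x e = true).card = m ∧ ∀ f g : Fin N → Fin q,
    ((univ.filter fun e => x e = true ∧ Sat f g e.1).card : ℝ) ≤ δ * m

open Classical in
/-- at least `m` constraints, no two tags at a constraint, at most `ε m` are violated -/
def UYes {N q K : ℕ} (m : ℕ) (ε : ℝ) (x : UPos N q K → Bool) : Prop :=
  Smp x ∧ m ≤ (univ.filter fun e => x e = true).card ∧ ∃ f g : Fin N → Fin q,
    ((univ.filter fun e => x e = true ∧ ¬ Sat f g e.1).card : ℝ) ≤ ε * m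

open Classical in
theorem ug_fault (q : ℕ) (hq : 1 ≤ q) (δ : ℝ) (hδ : 1 / (q : ℝ) < δ) :
    ∃ N0 : ℕ, ∀ N : ℕ, N0 ≤ N → ∃ m : ℕ, 0 < m ∧
      ∀ ε : ℝ, (N : ℝ) ^ (-(1 / 139) : ℝ) ≤ ε → ∀ (D K : ℕ) (b g : ℝ), 1 ≤ D → 0 < g → g ≤ 1 →
      D * (2 * Real.log N + Real.log (q.factorial : ℝ) + Real.log (2 / g)) ≤ K →
      ∀ (R : Type) [Fintype R] [Nonempty R] (C : R → RC (UPos N q K × Bool)) (s : ℕ)
      (hT : ∀ ρ, (C ρ).T = ∅) (hs : ∀ ρ, (C ρ).S ≤ s)
      (h1 : ∀ x : UPos N q K → Bool, UNo m δ x →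
        (b + g) * (Fintype.card R * (D : ℝ) ^ Fintype.card (UPos N q K)) ≤
        ({s : R × (UPos N q K → Fin D) | (C s.1).acc (lit x (Flt s.2))}.ncard : ℝ))
      (h2 : ∀ x : UPos N q K → Bool, UYes m ε x →
        ({ρ : R | (C ρ).acc (lit x ∅)}.ncard : ℝ) ≤ b * Fintype.card R),
      g ^ 2 * (2 : ℝ) ^ ((N : ℝ) ^ (1 / 139 : ℝ)) ≤ 40 * (s + 1) := by
  obtain ⟨N0, hN0⟩ := lower q hq δ hδ
  refine ⟨max N0 1, fun N hN => ?_⟩
  obtain ⟨m, hm, H⟩ := hN0 N ((le_max_left _ _).trans hN)
  have hN1 : 1 ≤ N := (le_max_right _ _).trans hN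
  refine ⟨m, hm, ?_⟩
  intro ε hε D K b g hD hg hg1 hK R _ _ C s hT hs h1 h2
  have hNR : (1 : ℝ) ≤ N := by exact_mod_cast hN1
  have hDR : (1 : ℝ) ≤ D := by exact_mod_cast hD
  have hfac : (1 : ℝ) ≤ (q.factorial : ℝ) := by exact_mod_cast Nat.factorial_pos q
  have hlog2 : 0 < Real.log (2 / g) := Real.log_pos (by
    rw [lt_div_iff₀ hg]
    linarith)
  have hK0 : 0 < K := by
    have h3 : (0 : ℝ) < K := by
      refine lt_of_lt_of_le ?_ hK
      have e1 := Real.log_nonneg hNR
      have e2 := Real.log_nonneg hfac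
      positivity
    exact_mod_cast h3
  have _ : NeZero K := ⟨hK0.ne'⟩
  have hne : Nonempty (Con N q) := ⟨⟨⟨0, by omega⟩, ⟨0, by omega⟩, 1⟩⟩
  have hcard : (Fintype.card (Con N q) : ℝ) = (N : ℝ) ^ 2 * (q.factorial : ℝ) := by
    rw [Fintype.card_prod, Fintype.card_prod, Fintype.card_perm, Fintype.card_fin, Fintype.card_fin]
    push_cast
    ring
  refine fault_adv (I := Game N q) (X := Con N q) (inputs N q) (fun I => encS I) (fun x => by
      left
      refine ⟨x, ?_⟩
      funext I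
      unfold Pool.Agent.H560R2.bit
      by_cases h3 : x ∈ I
      · rw [if_pos h3, if_pos (encS_true.mpr h3)]
      · rw [if_neg h3, if_neg (fun h4 => h3 (encS_true.mp h4))])
    (fun c => Or.inr ⟨c, rfl⟩) (NoI m δ) (YesI m ε) ((2 : ℝ) ^ ((N : ℝ) ^ (1 / 139 : ℝ)))
    (fun Ω _ _ l hl hsep => H ε hε Ω l hl hsep) (K := K) hD C hT s hs b g hg hg1 ?_
    (fun I hI τ => h1 _ ⟨smp_host I τ, ?_, fun f g => ?_⟩)
    (fun I hI τ => h2 _ ⟨smp_host I τ, ?_, ?_⟩)
  · rw [hcard, Real.log_mul (by positivity) (by positivity), Real.log_pow]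
    push_cast
    exact hK
  · rw [hostS_count' I τ]
    exact hI.1
  · have e := hostS_count I τ (fun x => Sat f g x)
    refine le_trans (le_of_eq ?_) (hI.2 f g)
    exact_mod_cast e
  · rw [hostS_count' I τ]
    exact hI.1
  · obtain ⟨-, f, g, hfg⟩ := hI
    refine ⟨f, g, ?_⟩
    have e := hostS_count I τ (fun x => ¬ Sat f g x)
    convert hfg using 2
    convert e

end Pool.Agent.Helper60.UG
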