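import Pool.Agent.W906.MU.Final
import Pool.Agent.Y630.TG.RcFault
import Pool.Agent.Helper60.UG.Amp

/-! Unique games whose constraints are hidden in random faults. -/

set_option autoImplicit false
set_option linter.unusedSectionVars false
set_option linter.unusedVariables false

namespace Pool.Agent.Helper60.UG

open Finset Pool.Agent.Y630.NW Pool.Agent.Y630.TF Pool.Agent.Y630.TR Pool.Agent.W969.MC
  Pool.Agent.W906.MU

lemma prog_of_fprog {I : Type} {inp : Set (I → ℝ)} {l : List (I → ℝ)}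
    {q : List (List ((I → ℝ) × ℝ))} (h : H630VC.FProg inp l q) (hq : q = []) :
    Pool.Agent.W906.MU.Prog inp l := by
  induction h with
  | nil => exact Prog.nil
  | input _ hf ih => exact Prog.input (ih hq) hf
  | gate _ hφ hf hg ih => exact Prog.gate (ih hq) hφ hf hg
  | free _ _ _ => exact absurd hq (by simp)

open Classical in
/-- hidden circuits decide the small problem with half of the advantage -/
theorem rc_adv {I X : Type} [Fintype X] [DecidableEq X] [Nonempty X] (inp : Set (I → ℝ))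
    (enc : I → X → Bool)
    (hbit : ∀ x, (fun i => Pool.Agent.H560R2.bit (enc i) x) ∈ inp)
    (hconst : ∀ c : ℝ, (fun _ => c) ∈ inp) (No Yes : I → Prop) {K D : ℕ} (hK : 0 < K) (hD : 0 < D)
    {R : Type} [Fintype R] [Nonempty R] (C : R → RC ((X × Fin K) × Bool))
    (hT : ∀ ρ, (C ρ).T = ∅) (b g : ℝ)
    (hbad : (Fintype.card X : ℝ) * (1 - 1 / (D : ℝ)) ^ K ≤ g / 2)
    (h1 : ∀ i, No i → ∀ τ : X → Fin K,
      (b + g) * (Fintype.card R * (D : ℝ) ^ Fintype.card (X × Fin K)) ≤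
      ({s : R × (X × Fin K → Fin D) | (C s.1).acc (lit (host (Function.Embedding.refl _)
        (fun _ => false) τ (enc i)) (Flt s.2))}.ncard : ℝ))
    (h2 : ∀ i, Yes i → ∀ τ : X → Fin K,
      ({ρ : R | (C ρ).acc (lit (host (Function.Embedding.refl _) (fun _ => false) τ (enc i))
        ∅)}.ncard : ℝ) ≤ b * Fintype.card R) :
    ∃ l : R × (X → Fin K) → List (I → ℝ), (∀ ω, Pool.Agent.W906.MU.Prog inp (l ω)) ∧
      (∀ ω, (l ω).length ≤ 3 * (C ω.1).S + 2) ∧ ∃ f : R × (X → Fin K) → I → ℝ,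
        (∀ ω, f ω ∈ l ω) ∧ ∀ i,
        (No i → (b + g / 2) * Fintype.card (R × (X → Fin K)) ≤
          ((univ.filter fun ω => 1 ≤ f ω i).card : ℝ)) ∧
        (Yes i → ((univ.filter fun ω => 1 ≤ f ω i).card : ℝ) ≤
          b * Fintype.card (R × (X → Fin K))) := by
  have _ : NeZero K := ⟨hK.ne'⟩
  have hx0 : Nonempty X := inferInstance
  obtain ⟨x0⟩ := hx0
  have hex : ∀ ω : R × (X → Fin K), ∃ (l : List (I → ℝ)) (f : I → ℝ),
      Pool.Agent.W906.MU.Prog inp l ∧
      l.length ≤ 3 * (C ω.1).S + 2 ∧ f ∈ l ∧ ∀ i, 1 ≤ f i ↔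
        (C ω.1).acc (rlit (Function.Embedding.refl _) (fun _ => false) ω.2 (enc i)) := by
    intro ω
    obtain ⟨σ, c, hσ⟩ := rlit_lsb (Function.Embedding.refl (X × Fin K)) (fun _ => false) ω.2
    obtain ⟨C', hsize, -, hT', hacc⟩ := subst (C ω.1) x0 σ c
    have hT2 : C'.T = ∅ := hT'.mpr (hT ω.1)
    obtain ⟨L, hL, hlen, f, hf, hval⟩ := rc_prog inp enc hbit hconst C' hT2
    refine ⟨L, f, prog_of_fprog hL rfl, ?_, hf, fun i => ?_⟩
    · have h3 : C'.S = (C ω.1).S := by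
        have h4 : C'.size = C'.S := by
          unfold RC.size
          rw [hT2, Finset.sum_empty, Nat.add_zero]
        have h5 : (C ω.1).size = (C ω.1).S := by
          unfold RC.size
          rw [hT ω.1, Finset.sum_empty, Nat.add_zero]
        rw [← h4, ← h5, hsize]
      rw [← h3]
      exact hlen
    · rw [hval i, hacc, hσ]
      rfl
  choose l f hprog hlen hmem hval using hex
  refine ⟨l, hprog, hlen, f, hmem, fun i => ⟨fun hi => ?_, fun hi => ?_⟩⟩
  · have h3 := transfer_yes (Function.Embedding.refl (X × Fin K)) (fun _ => false) hD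
      (fun ρ y => (C ρ).acc y) (fun ρ u v huv hu => acc_mono _ (hT ρ) huv hu) b g
      (by rw [Fintype.card_fin]; exact hbad) (enc i) (fun τ => h1 i hi τ)
    refine h3.trans (le_of_eq ?_)
    rw [Set.ncard_eq_toFinset_card']
    congr 2
    ext ω
    simp [hval]
  · have h3 := transfer_no (Function.Embedding.refl (X × Fin K)) (fun _ => false)
      (fun ρ y => (C ρ).acc y) (fun ρ u v huv hu => acc_mono _ (hT ρ) huv hu) b (enc i)
      (fun τ => h2 i hi τ)
    refine le_trans (le_of_eq ?_) h3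
    rw [Set.ncard_eq_toFinset_card']
    congr 2
    ext ω
    simp [hval]

/-- the number of places -/
lemma places_bad {D K : ℕ} (hD : 0 < D) {n g : ℝ} (hn : 0 < n) (hg : 0 < g)
    (hK : D * (Real.log n + Real.log (2 / g)) ≤ K) : n * (1 - 1 / (D : ℝ)) ^ K ≤ g / 2 := by
  have hDR : (0 : ℝ) < D := by exact_mod_cast hD
  have h0 : (0 : ℝ) ≤ 1 - 1 / (D : ℝ) := by
    rw [sub_nonneg, div_le_one hDR]
    exact_mod_cast hD
  have h1 : (1 - 1 / (D : ℝ)) ≤ Real.exp (-(1 / D)) := by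
    have := Real.add_one_le_exp (-(1 / (D : ℝ)))
    linarith
  have h2 : (1 - 1 / (D : ℝ)) ^ K ≤ Real.exp (-(K / D)) := by
    calc (1 - 1 / (D : ℝ)) ^ K ≤ Real.exp (-(1 / D)) ^ K := pow_le_pow_left₀ h0 h1 K
      _ = Real.exp (-(K / D)) := by
          rw [← Real.exp_nat_mul]
          congr 1
          ring
  have h3 : Real.log n + Real.log (2 / g) ≤ K / D := by
    rw [le_div_iff₀ hDR]
    linarith
  have h4 : Real.exp (-(K / D)) ≤ Real.exp (-(Real.log n + Real.log (2 / g))) := by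
    apply Real.exp_le_exp.mpr
    linarith
  have h5 : n * Real.exp (-(Real.log n + Real.log (2 / g))) = g / 2 := by
    rw [neg_add, Real.exp_add, Real.exp_neg (Real.log n), Real.exp_log hn,
      Real.exp_neg (Real.log (2 / g)), Real.exp_log (by positivity)]
    field_simp
  calc n * (1 - 1 / (D : ℝ)) ^ K ≤ n * Real.exp (-(Real.log n + Real.log (2 / g))) :=
        mul_le_mul_of_nonneg_left (h2.trans h4) hn.le
    _ = g / 2 := h5

open Classical in
/-- circuits with fan-in two and faults, in general: from a lower bound for separation with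
probability `2/3` to any advantage -/
theorem fault_adv {I X : Type} [Fintype X] [DecidableEq X] [Nonempty X] (inp : Set (I → ℝ))
    (enc : I → X → Bool)
    (hbit : ∀ x, (fun i => Pool.Agent.H560R2.bit (enc i) x) ∈ inp)
    (hconst : ∀ c : ℝ, (fun _ => c) ∈ inp) (No Yes : I → Prop) (M : ℝ)
    (hlow : ∀ (Ω : Type) [Fintype Ω] [Nonempty Ω] (l : Ω → List (I → ℝ)),
      (∀ ω, Pool.Agent.W906.MU.Prog inp (l ω)) →
      (∃ (out : Ω → I → ℝ) (τ : Ω → ℝ), (∀ ω, out ω ∈ l ω) ∧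
        (∀ i, No i → 2 * Fintype.card Ω ≤ 3 * (univ.filter fun ω => τ ω ≤ out ω i).card) ∧
        ∀ i, Yes i → 2 * Fintype.card Ω ≤ 3 * (univ.filter fun ω => out ω i < τ ω).card) →
      ∃ ω, M ≤ (l ω).length) {K D : ℕ} (hD : 0 < D)
    {R : Type} [Fintype R] [Nonempty R] (C : R → RC ((X × Fin K) × Bool))
    (hT : ∀ ρ, (C ρ).T = ∅) (s : ℕ) (hs : ∀ ρ, (C ρ).S ≤ s) (b g : ℝ) (hg : 0 < g) (hg1 : g ≤ 1)
    (hK : D * (Real.log (Fintype.card X) + Real.log (2 / g)) ≤ K)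
    (h1 : ∀ i, No i → ∀ τ : X → Fin K,
      (b + g) * (Fintype.card R * (D : ℝ) ^ Fintype.card (X × Fin K)) ≤
      ({s : R × (X × Fin K → Fin D) | (C s.1).acc (lit (host (Function.Embedding.refl _)
        (fun _ => false) τ (enc i)) (Flt s.2))}.ncard : ℝ))
    (h2 : ∀ i, Yes i → ∀ τ : X → Fin K,
      ({ρ : R | (C ρ).acc (lit (host (Function.Embedding.refl _) (fun _ => false) τ (enc i))
        ∅)}.ncard : ℝ) ≤ b * Fintype.card R) :
    g ^ 2 * M ≤ 40 * (s + 1) := by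
  have hX : (1 : ℝ) ≤ Fintype.card X := by exact_mod_cast Fintype.card_pos (α := X)
  have hDR : (1 : ℝ) ≤ D := by exact_mod_cast hD
  have hlog2 : 0 < Real.log (2 / g) := Real.log_pos (by
    rw [lt_div_iff₀ hg]
    linarith)
  have hK0 : 0 < K := by
    have h3 : (0 : ℝ) < K := by
      refine lt_of_lt_of_le ?_ hK
      have := Real.log_nonneg hX
      positivity
    exact_mod_cast h3
  have _ : NeZero K := ⟨hK0.ne'⟩
  obtain ⟨l, hprog, hlen, f, hf, hdec⟩ := rc_adv inp enc hbit hconst No Yes hK0 hD C hT b g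
    (places_bad hD (by linarith) hg hK) h1 h2
  have hne : Nonempty (R × (X → Fin K)) := ⟨(Classical.arbitrary R, fun _ => 0)⟩
  obtain ⟨t, ht⟩ : ∃ t : ℕ, t = ⌈12 / g ^ 2⌉₊ := ⟨_, rfl⟩
  have hg2 : 0 < g ^ 2 := by positivity
  have ht1 : 12 / g ^ 2 ≤ (t : ℝ) := by rw [ht]; exact Nat.le_ceil _
  have ht2 : (t : ℝ) < 12 / g ^ 2 + 1 := by
    rw [ht]
    exact Nat.ceil_lt_add_one (by positivity)
  have ht3 : 3 ≤ (t : ℝ) * (g / 2) ^ 2 := by
    rw [div_le_iff₀ hg2] at ht1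
    nlinarith
  obtain ⟨L, hL, hLlen, F, τ, hF, hsep⟩ := amplify (hconst 0) l hprog (3 * s + 2)
    (fun ω => (hlen ω).trans (by have := hs ω.1; omega)) f hf No Yes b (g / 2) (by positivity)
    (fun i hi => (hdec i).1 hi) (fun i hi => (hdec i).2 hi) t ht3
  obtain ⟨ω, hω⟩ := hlow _ L hL ⟨F, fun _ => τ, hF, fun i hi => (hsep i).1 hi,
    fun i hi => (hsep i).2 hi⟩
  have h3 : M ≤ t * (3 * s + 3) + 1 := by
    refine hω.trans ?_
    have h4 := hLlen ω
    exact_mod_cast h4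
  have h5 : g ^ 2 * (t : ℝ) ≤ 13 := by
    have h6 : g ^ 2 * (t : ℝ) ≤ g ^ 2 * (12 / g ^ 2 + 1) := mul_le_mul_of_nonneg_left ht2.le hg2.le
    have h7 : g ^ 2 * (12 / g ^ 2 + 1) = 12 + g ^ 2 := by field_simp
    have h8 : g ^ 2 ≤ 1 := by nlinarith
    linarith
  have h6 : g ^ 2 * M ≤ g ^ 2 * (t * (3 * s + 3) + 1) := mul_le_mul_of_nonneg_left h3 hg2.le
  have h7 : g ^ 2 * ((t : ℝ) * (3 * s + 3) + 1) = (g ^ 2 * t) * (3 * s + 3) + g ^ 2 := by ring
  have h8 : g ^ 2 ≤ 1 := by nlinarith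
  have h9 : (0 : ℝ) ≤ 3 * s + 3 := by positivity
  have h10 : (g ^ 2 * (t : ℝ)) * (3 * s + 3) ≤ 13 * (3 * s + 3) := mul_le_mul_of_nonneg_right h5 h9
  have h11 : (0 : ℝ) ≤ s := Nat.cast_nonneg s
  rw [h7] at h6
  linarith

end Pool.Agent.Helper60.UG
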